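import Pool.Agent.H30.SL.Stm

set_option autoImplicit false
open Finset Pool.Agent.H30.SL

namespace Pool.Agent.H14.SL

attribute [local instance 100] LieRing.ofAssociativeRing

theorem fam {K : Type} [Field K] {l : List ℕ} {T : FreeLieAlgebra K ℕ} (hT : MW K l T) :
    ∀ d : ℕ, l.length = d → ∃ F : (Fin d → ℕ) → FreeLieAlgebra K ℕ,
      (∀ v, MW K (List.ofFn v) (F v)) ∧
      (∀ v : Fin d → ℕ, List.ofFn v = l → F v = T) ∧
      (∀ (φ : FreeLieAlgebra K ℕ →ₗ⁅K⁆ FreeLieAlgebra K ℕ) (v v' : Fin d → ℕ),
        (∀ k, φ (FreeLieAlgebra.of K (v k)) = FreeLieAlgebra.of K (v' k)) → φ (F v) = F v') ∧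
      (∀ (D : ℕ) (φ : FreeLieAlgebra K ℕ →ₗ⁅K⁆ FreeLieAlgebra K ℕ) (G : ℕ → Finset (Fin D)),
        (∀ i, φ (FreeLieAlgebra.of K i) = ∑ j ∈ G i, FreeLieAlgebra.of K (j : ℕ)) →
        ∀ v : Fin d → ℕ, φ (F v) = ∑ f ∈ Fintype.piFinset (fun k => G (v k)),
          F (fun k => (f k : ℕ))) := by
  induction hT with
  | of i =>
    intro d hd
    obtain rfl : d = 1 := by simpa using hd.symm
    refine ⟨fun v => FreeLieAlgebra.of K (v 0), ?_, ?_, ?_, ?_⟩
    · intro v
      simpa [List.ofFn_succ] using MW.of (K := K) (v 0)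
    · intro v hv
      simp [List.ofFn_succ] at hv
      simp only [hv]
    · intro φ v v' h
      exact h 0
    · intro D φ G hG v
      simp only
      rw [hG]
      refine Finset.sum_nbij' (fun j => fun _ => j) (fun f => f 0) ?_ ?_ ?_ ?_ ?_
      · intro j hj
        rw [Fintype.mem_piFinset]
        intro k
        rw [Subsingleton.elim k 0]
        exact hj
      · intro f hf
        rw [Fintype.mem_piFinset] at hf
        exact hf 0
      · intro j hj
        rfl
      · intro f hf
        funext k
        rw [Subsingleton.elim k 0]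
      · intro j hj
        rfl
  | lie hs ht ihs iht =>
    rename_i s t x y
    intro d hd
    rw [List.length_append] at hd
    subst hd
    obtain ⟨F1, a1, a2, a3, a4⟩ := ihs _ rfl
    obtain ⟨F2, b1, b2, b3, b4⟩ := iht _ rfl
    refine ⟨fun v => ⁅F1 (fun k => v (Fin.castAdd _ k)), F2 (fun k => v (Fin.natAdd _ k))⁆,
      ?_, ?_, ?_, ?_⟩
    · intro v
      rw [List.ofFn_add]
      exact MW.lie (a1 _) (b1 _)
    · intro v hv
      rw [List.ofFn_add] at hv
      have h := List.append_inj hv (by simp)
      exact congrArg₂ (fun a b => ⁅a, b⁆) (a2 _ h.1) (b2 _ h.2)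
    · intro φ v v' h
      simp only [LieHom.map_lie]
      rw [a3 φ _ (fun k => v' (Fin.castAdd _ k)) (fun k => h _),
        b3 φ _ (fun k => v' (Fin.natAdd _ k)) (fun k => h _)]
    · intro D φ G hG v
      simp only [LieHom.map_lie]
      rw [a4 D φ G hG, b4 D φ G hG, sum_lie]
      simp only [lie_sum]
      rw [← Finset.sum_product']
      refine Finset.sum_nbij' (fun p => Fin.append p.1 p.2)
        (fun f => (fun k => f (Fin.castAdd _ k), fun k => f (Fin.natAdd _ k))) ?_ ?_ ?_ ?_ ?_
      · intro p hp
        rw [Finset.mem_product, Fintype.mem_piFinset, Fintype.mem_piFinset] at hp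
        rw [Fintype.mem_piFinset]
        intro k
        refine Fin.addCases (fun i => ?_) (fun i => ?_) k
        · rw [Fin.append_left]; exact hp.1 i
        · rw [Fin.append_right]; exact hp.2 i
      · intro f hf
        rw [Fintype.mem_piFinset] at hf
        rw [Finset.mem_product, Fintype.mem_piFinset, Fintype.mem_piFinset]
        exact ⟨fun i => hf _, fun i => hf _⟩
      · intro p hp
        ext k <;> simp
      · intro f hf
        exact Fin.append_castAdd_natAdd
      · intro p hp
        simp

theorem sgn {K : Type} [Field K] {D : ℕ} (A : Finset (Fin D)) :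
    ∑ S ∈ (Finset.univ : Finset (Finset (Fin D))).filter (fun S => A ⊆ S),
      (-1 : K) ^ (D - S.card) = if A = Finset.univ then 1 else 0 := by
  have h := Finset.sum_powerset_neg_one_pow_card (x := Aᶜ)
  have h2 : (∑ m ∈ (Aᶜ).powerset, (-1 : K) ^ m.card) = if Aᶜ = ∅ then 1 else 0 := by
    have := congrArg (fun z : ℤ => (z : K)) h
    push_cast at this
    rw [this]
  have h3 : (if A = Finset.univ then (1 : K) else 0) = if Aᶜ = ∅ then 1 else 0 := by
    by_cases hA : A = Finset.univ
    · rw [if_pos hA, if_pos (by rw [hA]; simp)]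
    · rw [if_neg hA, if_neg (by simpa using hA)]
  rw [h3, ← h2]
  refine Finset.sum_nbij' (fun S => Sᶜ) (fun S => Sᶜ) ?_ ?_ ?_ ?_ ?_
  · intro S hS
    rw [Finset.mem_filter] at hS
    rw [Finset.mem_powerset]
    exact Finset.compl_subset_compl.mpr hS.2
  · intro S hS
    rw [Finset.mem_powerset] at hS
    rw [Finset.mem_filter]
    refine ⟨Finset.mem_univ _, ?_⟩
    intro x hx
    rw [Finset.mem_compl]
    intro hxS
    exact (Finset.mem_compl.mp (hS hxS)) hx
  · intro S _; simp
  · intro S _; simp
  · intro S _
    rw [Finset.card_compl, Fintype.card_fin]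

theorem Ph_eq {K : Type} [Field K] {D d : ℕ} (w : Fin D → ℕ) (T : FreeLieAlgebra K ℕ)
    (l : Fin d → ℕ) (F : (Fin d → ℕ) → FreeLieAlgebra K ℕ) (hF : F l = T)
    (h4 : ∀ (D : ℕ) (φ : FreeLieAlgebra K ℕ →ₗ⁅K⁆ FreeLieAlgebra K ℕ) (G : ℕ → Finset (Fin D)),
        (∀ i, φ (FreeLieAlgebra.of K i) = ∑ j ∈ G i, FreeLieAlgebra.of K (j : ℕ)) →
        ∀ v : Fin d → ℕ, φ (F v) = ∑ f ∈ Fintype.piFinset (fun k => G (v k)),
          F (fun k => (f k : ℕ))) :
    Ph K D w T = ∑ f : Fin d → Fin D,
      if (∀ k, w (f k) = l k) ∧ Function.Surjective f then F (fun k => (f k : ℕ)) else 0 := by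
  have h1 : ∀ S : Finset (Fin D), sub K D w S T =
      ∑ f : Fin d → Fin D, if (∀ k, w (f k) = l k) ∧ Finset.univ.image f ⊆ S
        then F (fun k => (f k : ℕ)) else 0 := by
    intro S
    rw [← hF, h4 D (sub K D w S) (fun i => S.filter (fun j => w j = i))
      (fun i => by rw [sub, FreeLieAlgebra.lift_of_apply]) l, ← Finset.sum_filter]
    refine Finset.sum_congr ?_ (fun _ _ => rfl)
    ext f
    simp only [Fintype.mem_piFinset, Finset.mem_filter, Finset.mem_univ, true_and,
      Finset.image_subset_iff, forall_true_left]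
    exact ⟨fun h => ⟨fun k => (h k).2, fun k => (h k).1⟩, fun h k => ⟨h.2 k, h.1 k⟩⟩
  rw [Ph]
  simp only [h1, Finset.smul_sum]
  rw [Finset.sum_comm]
  refine Finset.sum_congr rfl (fun f _ => ?_)
  have h2 := sgn (K := K) (Finset.univ.image f)
  by_cases hw : ∀ k, w (f k) = l k
  · have h3 : (∑ S : Finset (Fin D), (-1 : K) ^ (D - S.card) •
        (if (∀ k, w (f k) = l k) ∧ Finset.univ.image f ⊆ S then F (fun k => (f k : ℕ)) else 0)) =
        (∑ S ∈ (Finset.univ : Finset (Finset (Fin D))).filter (fun S => Finset.univ.image f ⊆ S),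
          (-1 : K) ^ (D - S.card)) • F (fun k => (f k : ℕ)) := by
      rw [Finset.sum_smul, Finset.sum_filter]
      refine Finset.sum_congr rfl (fun S _ => ?_)
      by_cases h : Finset.univ.image f ⊆ S
      · simp only [hw, h, implies_true, and_self, if_true]
      · simp only [h, and_false, if_false, smul_zero]
    rw [h3, h2]
    have h5 : (Finset.univ.image f = Finset.univ) ↔ Function.Surjective f := by
      rw [Finset.eq_univ_iff_forall]
      simp [Function.Surjective]
    by_cases hs : Function.Surjective f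
    · rw [if_pos (h5.mpr hs), if_pos ⟨hw, hs⟩, one_smul]
    · rw [if_neg (fun h => hs (h5.mp h)), if_neg (fun h => hs h.2), zero_smul]
  · rw [if_neg (fun h => hw h.1)]
    refine Finset.sum_eq_zero (fun S _ => ?_)
    rw [if_neg (fun h => hw h.1), smul_zero]

theorem t_POL' (K : Type) [Field K] (D : ℕ) (l : List ℕ) (T : FreeLieAlgebra K ℕ)
    (hT : MW K l T) :
    (l.length < D → ∀ w : Fin D → ℕ, Ph K D w T = 0) ∧
    (l.length = D → ∀ w : Fin D → ℕ,
      Ph K D w T ∈ Submodule.span K
        {x | ∃ l' : List ℕ, l'.Perm (List.range D) ∧ MW K l' x}) ∧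
    (l.length = D → ∀ N : ℕ, (∀ i ∈ l, i < N) →
      ∑ w : Fin D → Fin N, back K D (fun j => (w j : ℕ)) (Ph K D (fun j => (w j : ℕ)) T)
        = (D.factorial : K) • T) := by
  obtain ⟨F, h1, h2, h3, h4⟩ := fam hT l.length rfl
  have hF : F (fun k => l.get k) = T := h2 _ (List.ofFn_get l)
  have hPh := fun (w : Fin D → ℕ) => Ph_eq w T (fun k => l.get k) F hF h4
  refine ⟨?_, ?_, ?_⟩
  · intro hlt w
    rw [hPh]
    refine Finset.sum_eq_zero (fun f _ => ?_)
    rw [if_neg]
    rintro ⟨-, hs⟩
    have := Fintype.card_le_of_surjective f hs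
    simp only [Fintype.card_fin] at this
    omega
  · intro heq w
    rw [hPh]
    refine Submodule.sum_mem _ (fun f _ => ?_)
    by_cases hf : (∀ k, w (f k) = l.get k) ∧ Function.Surjective f
    · rw [if_pos hf]
      refine Submodule.subset_span ⟨_, ?_, h1 _⟩
      have hinj : Function.Injective f :=
        (Fintype.bijective_iff_surjective_and_card f |>.mpr
          ⟨hf.2, by simp only [Fintype.card_fin]; exact heq⟩).1
      have hnd : (List.ofFn (fun k => (f k : ℕ))).Nodup := by
        rw [List.nodup_ofFn]
        exact fun a b hab => hinj (Fin.ext hab)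
      rw [List.perm_ext_iff_of_nodup hnd List.nodup_range]
      intro a
      rw [List.mem_ofFn, List.mem_range]
      constructor
      · rintro ⟨k, rfl⟩
        exact (f k).2
      · intro ha
        obtain ⟨k, hk⟩ := hf.2 ⟨a, ha⟩
        exact ⟨k, by rw [hk]⟩
    · rw [if_neg hf]
      exact Submodule.zero_mem _
  · intro heq N hN
    subst heq
    have hst : ∀ w : Fin l.length → Fin N, back K l.length (fun j => (w j : ℕ))
        (Ph K l.length (fun j => (w j : ℕ)) T) =
        ∑ f : Fin l.length → Fin l.length,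
          if (∀ k, ((w (f k) : Fin N) : ℕ) = l.get k) ∧ Function.Surjective f then T else 0 := by
      intro w
      rw [hPh, map_sum]
      refine Finset.sum_congr rfl (fun f _ => ?_)
      by_cases hf : (∀ k, ((w (f k) : Fin N) : ℕ) = l.get k) ∧ Function.Surjective f
      · rw [if_pos hf, if_pos hf, h3 _ _ (fun k => l.get k), hF]
        intro k
        rw [back, FreeLieAlgebra.lift_of_apply, dif_pos (f k).2]
        simp only [Fin.eta]
        rw [hf.1 k]
      · rw [if_neg hf, if_neg hf, map_zero]
    simp only [hst]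
    rw [Finset.sum_comm]
    have hinner : ∀ f : Fin l.length → Fin l.length,
        (∑ w : Fin l.length → Fin N,
          if (∀ k, ((w (f k) : Fin N) : ℕ) = l.get k) ∧ Function.Surjective f then T else 0) =
        if Function.Bijective f then T else 0 := by
      intro f
      by_cases hs : Function.Bijective f
      · rw [if_pos hs]
        let g := Equiv.ofBijective f hs
        rw [Finset.sum_eq_single
          (fun j => (⟨l.get (g.symm j), hN _ (List.get_mem _ _)⟩ : Fin N))]
        · rw [if_pos]
          refine ⟨fun k => ?_, hs.2⟩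
          have : g.symm (f k) = k := g.symm_apply_apply k
          simp only [this]
        · intro w _ hw
          rw [if_neg]
          rintro ⟨hw2, -⟩
          apply hw
          funext j
          apply Fin.ext
          have := hw2 (g.symm j)
          have hgj : f (g.symm j) = j := g.apply_symm_apply j
          rw [hgj] at this
          exact this
        · intro h
          exact absurd (Finset.mem_univ _) h
      · rw [if_neg hs]
        refine Finset.sum_eq_zero (fun w _ => ?_)
        rw [if_neg]
        rintro ⟨-, h⟩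
        exact hs ((Fintype.bijective_iff_surjective_and_card f).mpr ⟨h, rfl⟩)
    simp only [hinner]
    rw [← Finset.sum_filter, Finset.sum_const]
    have hcard : ((Finset.univ : Finset (Fin l.length → Fin l.length)).filter
        (fun f => Function.Bijective f)).card = l.length.factorial := by
      rw [← Fintype.card_subtype]
      rw [show l.length.factorial = (Fintype.card (Fin l.length)).factorial by simp,
        ← Fintype.card_perm]
      exact Fintype.card_congr (Equiv.ofBijective
        (fun f : {f : Fin l.length → Fin l.length // Function.Bijective f} =>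
          (Equiv.ofBijective f.1 f.2 : Equiv.Perm (Fin l.length)))
        ⟨fun a b hab => Subtype.ext (congrArg (fun e : Equiv.Perm (Fin l.length) => (e : Fin l.length → Fin l.length)) hab),
         fun e => ⟨⟨e, e.bijective⟩, by ext; rfl⟩⟩)
    rw [hcard, ← Nat.cast_smul_eq_nsmul K]

theorem t_POL : S_POL := fun K _ D l T hT => t_POL' K D l T hT

end Pool.Agent.H14.SL
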